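import Pool.Agent.W223.RB.Stms
import Pool.Agent.W75.PL.DIV

/-! Part BMAIN of project RB. -/

set_option autoImplicit false

namespace Pool.Agent.W64.RB.BMAIN

open Pool.Agent.W223.RB
open Finset

/-- the light set of a point -/
theorem light_set (hBPRT : StmtBPRT) {d : ℕ} (α β : Fin d → ℤ) (hd : 4 ≤ d) (x y : ℤ)
    (hF0 : F α β x y ≠ 0) (hL1 : 1 ≤ lH x y)
    (h1 : ∀ p : ℕ, p.Prime → ((F α β x y).natAbs.factorization p : ℝ) * Real.log p ≤
      ((d : ℝ) - 17 / 8) * lH x y)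
    (h2 : Real.log |(F α β x y : ℝ)| ≤ 5 / 2 * (((d : ℝ) - 17 / 8) * lH x y)) :
    ∃ m : ℕ, 1 ≤ m ∧
      (m : ℝ) ≤ ((∏ p ∈ (F α β x y).natAbs.primeFactors, p : ℕ) : ℝ) ^ (4 / 5 : ℝ) ∧
      Light α β m.primeFactors x y := by
  set n := (F α β x y).natAbs with hn
  have hn0 : n ≠ 0 := by
    rw [hn]
    exact Int.natAbs_ne_zero.mpr hF0
  set P := n.primeFactors with hP
  have hdR : (4 : ℝ) ≤ d := by exact_mod_cast hd
  have hτ : 0 < ((d : ℝ) - 17 / 8) * lH x y := by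
    apply mul_pos
    · linarith
    · linarith
  have hpr : ∀ p ∈ P, p.Prime := fun p hp => Nat.prime_of_mem_primeFactors hp
  have hlog : Real.log |(F α β x y : ℝ)| = ∑ p ∈ P, (n.factorization p : ℝ) * Real.log p := by
    have e1 : |(F α β x y : ℝ)| = (n : ℝ) := by
      rw [hn, ← Int.cast_abs, Nat.cast_natAbs]
    rw [e1, Real.log_nat_eq_sum_factorization]
    rfl
  obtain ⟨s, hs, hs1, hs2⟩ := hBPRT P (fun p => Real.log p)
    (fun p => (n.factorization p : ℝ) * Real.log p) (((d : ℝ) - 17 / 8) * lH x y) hτ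
    (fun p hp => Real.log_nonneg (by exact_mod_cast (hpr p hp).one_le))
    (fun p hp => mul_nonneg (Nat.cast_nonneg _)
      (Real.log_nonneg (by exact_mod_cast (hpr p hp).one_le)))
    (fun p hp => h1 p (hpr p hp)) (by rw [← hlog]; exact h2)
  have hSp : ∀ p ∈ P \ s, p.Prime := fun p hp => hpr p (Finset.mem_sdiff.mp hp).1
  have hm0 : (∏ p ∈ P \ s, p) ≠ 0 := Finset.prod_ne_zero_iff.mpr fun p hp => (hSp p hp).ne_zero
  refine ⟨∏ p ∈ P \ s, p, Nat.one_le_iff_ne_zero.mpr hm0, ?_, ?_⟩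
  · have hlm : Real.log ((∏ p ∈ P \ s, p : ℕ) : ℝ) = ∑ p ∈ P \ s, Real.log (p : ℝ) := by
      rw [Nat.cast_prod, Real.log_prod]
      intro p hp
      exact_mod_cast (hSp p hp).ne_zero
    have hlR : Real.log ((∏ p ∈ P, p : ℕ) : ℝ) = ∑ p ∈ P, Real.log (p : ℝ) := by
      rw [Nat.cast_prod, Real.log_prod]
      intro p hp
      exact_mod_cast (hpr p hp).ne_zero
    have hsum := Finset.sum_sdiff (f := fun p : ℕ => Real.log (p : ℝ)) hs
    have hR0 : (0 : ℝ) < ((∏ p ∈ P, p : ℕ) : ℝ) := by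
      have : 0 < ∏ p ∈ P, p := Finset.prod_pos fun p hp => (hpr p hp).pos
      exact_mod_cast this
    have hm0' : (0 : ℝ) < ((∏ p ∈ P \ s, p : ℕ) : ℝ) := by
      exact_mod_cast Nat.pos_of_ne_zero hm0
    rw [← Real.log_le_log_iff hm0' (Real.rpow_pos_of_pos hR0 _), Real.log_rpow hR0, hlm, hlR]
    linarith
  · rw [Nat.primeFactors_prod hSp]
    unfold Light
    have hsum := Finset.sum_sdiff (f := fun p : ℕ => (n.factorization p : ℝ) * Real.log p) hs
    rw [hlog]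
    linarith

/-- number of divisors -/
theorem two_pow_card (m : ℕ) (hm : 1 ≤ m) : 2 ^ m.primeFactors.card ≤ m.divisors.card := by
  rw [Nat.card_divisors (by omega)]
  refine Finset.pow_card_le_prod _ _ _ fun p hp => ?_
  have h1 : 0 < m.factorization p :=
    Nat.Prime.factorization_pos_of_dvd (Nat.prime_of_mem_primeFactors hp) (by omega)
      (Nat.dvd_of_mem_primeFactors hp)
  omega

theorem tBMAIN (hBGAP : StmtBGAP) (hBSGL : StmtBSGL) (hBPRT : StmtBPRT) : StmtBMAIN := by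
  intro d α β hG δ ε hδ hε
  obtain ⟨K, l0, hl0, hgap⟩ := hBGAP d α β hG
  obtain ⟨C1, hC1, hsgl⟩ := hBSGL d α β hG
  obtain ⟨Cη, hCη1, hdiv⟩ := Pool.Agent.W75.PL.DIV.t (ε / (K + 1)) (by positivity)
  set c0 : ℝ := max l0 C1 with hc0
  have hc0l : l0 ≤ c0 := le_max_left _ _
  have hc0C : C1 ≤ c0 := le_max_right _ _
  have hc01 : 1 ≤ c0 := hl0.trans hc0l
  set N0 : ℤ := ⌈Real.exp c0⌉ with hN0
  set B0 : Set ℕ := (fun q : ℤ × ℤ => ∏ p ∈ (F α β q.1 q.2).natAbs.primeFactors, p) ''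
    ((Set.Icc (-N0) N0) ×ˢ (Set.Icc (-N0) N0)) with hB0
  have hB0fin : B0.Finite :=
    ((Set.finite_Icc (-N0) N0).prod (Set.finite_Icc (-N0) N0)).image _
  refine ⟨(B0.ncard : ℝ) + 34 * (2 * Cη) ^ K, fun X hX => ?_⟩
  have hX0 : 0 < X := by linarith
  set T : Set ℕ := {R : ℕ | (R : ℝ) ≤ X ∧ ∃ x y : ℤ, IsCoprime x y ∧ F α β x y ≠ 0 ∧
    ∏ p ∈ (F α β x y).natAbs.primeFactors, p = R ∧ Real.log (lH x y) ≤ X ^ δ} with hT
  set M : ℕ := ⌊X ^ (4 / 5 : ℝ)⌋₊ with hM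
  set N : ℕ := ⌊33 * X ^ δ⌋₊ with hN
  set I : Finset (ℕ × ℕ) := (Finset.Icc 1 M) ×ˢ (Finset.range (N + 1)) with hI
  set LS : ℕ × ℕ → Set ℕ := fun q => LSet α β q.1.primeFactors (c0 * (33 / 32) ^ q.2) with hLS
  have hscale : ∀ i : ℕ, l0 ≤ c0 * (33 / 32) ^ i := by
    intro i
    have : (1 : ℝ) ≤ (33 / 32) ^ i := one_le_pow₀ (by norm_num)
    nlinarith
  have hsub : T ⊆ B0 ∪ ⋃ q ∈ I, LS q := by
    rintro R ⟨hRX, x, y, hcop, hF0, hR, hll⟩
    by_cases hL : lH x y < c0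
    · left
      have hxy : ¬ (x = 0 ∧ y = 0) := by
        rintro ⟨rfl, rfl⟩
        exact not_isCoprime_zero_zero hcop
      have hmax : 0 < max |(x : ℝ)| |(y : ℝ)| := by
        rw [lt_max_iff]
        by_cases hx : x = 0
        · right
          have hy : y ≠ 0 := fun h => hxy ⟨hx, h⟩
          exact abs_pos.mpr (by exact_mod_cast hy)
        · left
          exact abs_pos.mpr (by exact_mod_cast hx)
      have hlt : max |(x : ℝ)| |(y : ℝ)| < Real.exp c0 := by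
        rw [← Real.log_lt_iff_lt_exp hmax]
        exact hL
      have hc : Real.exp c0 ≤ (N0 : ℝ) := Int.le_ceil _
      have hx : |x| ≤ N0 := by
        have : (|x| : ℝ) ≤ (N0 : ℝ) := ((le_max_left _ _).trans hlt.le).trans hc
        exact_mod_cast this
      have hy : |y| ≤ N0 := by
        have : (|y| : ℝ) ≤ (N0 : ℝ) := ((le_max_right _ _).trans hlt.le).trans hc
        exact_mod_cast this
      exact ⟨(x, y), ⟨Set.mem_Icc.mpr (abs_le.mp hx), Set.mem_Icc.mpr (abs_le.mp hy)⟩, hR⟩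
    · right
      push Not at hL
      have hL1 : 1 ≤ lH x y := hc01.trans hL
      obtain ⟨hs1, hs2⟩ := hsgl x y ⟨hcop, hF0⟩ (hc0C.trans hL)
      obtain ⟨m, hm1, hmR, hlight⟩ := light_set hBPRT α β hG.1 x y hF0 hL1 hs1 hs2
      rw [hR] at hmR
      have hmX : (m : ℝ) ≤ X ^ (4 / 5 : ℝ) :=
        hmR.trans (Real.rpow_le_rpow (Nat.cast_nonneg _) hRX (by norm_num))
      have hmM : m ≤ M := Nat.le_floor hmX
      have hdivL : 1 ≤ lH x y / c0 := by
        rw [le_div_iff₀ (by linarith)]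
        linarith
      obtain ⟨i, hi1, hi2⟩ := exists_nat_pow_near hdivL (show (1 : ℝ) < 33 / 32 by norm_num)
      rw [le_div_iff₀ (by linarith)] at hi1
      rw [div_lt_iff₀ (by linarith)] at hi2
      have hiN : i ≤ N := by
        apply Nat.le_floor
        have e1 : (33 / 32 : ℝ) ^ i ≤ lH x y := by
          have : (0 : ℝ) ≤ (33 / 32) ^ i := by positivity
          nlinarith
        have e2 : (i : ℝ) * Real.log (33 / 32) ≤ Real.log (lH x y) := by
          rw [← Real.log_pow]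
          exact Real.log_le_log (by positivity) e1
        have e3 : (1 / 33 : ℝ) ≤ Real.log (33 / 32) := by
          have h4 := Real.one_sub_inv_le_log_of_pos (show (0 : ℝ) < 33 / 32 by norm_num)
          norm_num at h4 ⊢
          linarith
        have hi0 : (0 : ℝ) ≤ i := Nat.cast_nonneg _
        nlinarith
      rw [Set.mem_iUnion₂]
      refine ⟨(m, i), ?_, x, y, ⟨hcop, hF0⟩, ⟨?_, ?_⟩, hlight, hR⟩
      · rw [hI, Finset.mem_product, Finset.mem_Icc, Finset.mem_range]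
        exact ⟨⟨hm1, hmM⟩, Nat.lt_succ_of_le hiN⟩
      · show c0 * (33 / 32) ^ i ≤ lH x y
        linarith
      · show lH x y ≤ 33 / 32 * (c0 * (33 / 32) ^ i)
        have : (33 / 32 : ℝ) ^ (i + 1) * c0 = 33 / 32 * (c0 * (33 / 32) ^ i) := by
          rw [pow_succ]; ring
        linarith
  have hprime : ∀ m : ℕ, ∀ q ∈ m.primeFactors, q.Prime := fun m q hq =>
    Nat.prime_of_mem_primeFactors hq
  have hUfin : (B0 ∪ ⋃ q ∈ I, LS q).Finite := by
    refine hB0fin.union ?_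
    refine Set.Finite.biUnion I.finite_toSet fun q _ => ?_
    exact (hgap q.1.primeFactors _ (hprime _) (hscale q.2)).1
  have hXd : 1 ≤ X ^ δ := Real.one_le_rpow hX hδ.le
  have hXe : 0 < X ^ ε := Real.rpow_pos_of_pos hX0 _
  have hX45 : 0 < X ^ (4 / 5 : ℝ) := Real.rpow_pos_of_pos hX0 _
  have hM' : (M : ℝ) ≤ X ^ (4 / 5 : ℝ) := Nat.floor_le hX45.le
  have hN' : (N : ℝ) ≤ 33 * X ^ δ := Nat.floor_le (by positivity)
  have hterm : ∀ q ∈ I, ((LS q).ncard : ℝ) ≤ (2 * Cη) ^ K * X ^ ε := by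
    intro q hq
    rw [hI, Finset.mem_product, Finset.mem_Icc, Finset.mem_range] at hq
    obtain ⟨⟨hm1, hmM⟩, -⟩ := hq
    have h1 := (hgap q.1.primeFactors _ (hprime _) (hscale q.2)).2
    have h2 : ((LS q).ncard : ℝ) ≤ (2 * 2 ^ q.1.primeFactors.card) ^ K := by
      have : (LS q).ncard ≤ (2 * 2 ^ q.1.primeFactors.card) ^ K := by
        refine h1.trans (le_of_eq ?_)
        rw [← pow_succ', ← pow_mul]
        ring_nf
      exact_mod_cast this
    have h3 : ((2 : ℝ) ^ q.1.primeFactors.card) ≤ Cη * X ^ (ε / (K + 1)) := by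
      have h4 : ((2 : ℝ) ^ q.1.primeFactors.card) ≤ (q.1.divisors.card : ℝ) := by
        exact_mod_cast two_pow_card q.1 hm1
      refine h4.trans ((hdiv q.1 hm1).trans ?_)
      refine mul_le_mul_of_nonneg_left ?_ (by linarith)
      refine Real.rpow_le_rpow (Nat.cast_nonneg _) ?_ (by positivity)
      have h5 : (q.1 : ℝ) ≤ M := by exact_mod_cast hmM
      refine h5.trans (hM'.trans ?_)
      calc X ^ (4 / 5 : ℝ) ≤ X ^ (1 : ℝ) := Real.rpow_le_rpow_of_exponent_le hX (by norm_num)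
        _ = X := Real.rpow_one X
    calc ((LS q).ncard : ℝ) ≤ (2 * 2 ^ q.1.primeFactors.card) ^ K := h2
      _ ≤ (2 * (Cη * X ^ (ε / (K + 1)))) ^ K := by
          refine pow_le_pow_left₀ (by positivity) ?_ K
          linarith
      _ = (2 * Cη) ^ K * (X ^ (ε / (K + 1))) ^ K := by
          rw [← mul_assoc, mul_pow]
      _ ≤ (2 * Cη) ^ K * X ^ ε := by
          refine mul_le_mul_of_nonneg_left ?_ (by positivity)
          rw [← Real.rpow_natCast, ← Real.rpow_mul hX0.le]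
          refine Real.rpow_le_rpow_of_exponent_le hX ?_
          rw [div_mul_eq_mul_div, div_le_iff₀ (by positivity)]
          nlinarith
  have hcard : (I.card : ℝ) ≤ X ^ (4 / 5 : ℝ) * (34 * X ^ δ) := by
    have h1 : I.card = M * (N + 1) := by
      rw [hI, Finset.card_product, Nat.card_Icc, Finset.card_range]
      simp
    rw [h1]
    push_cast
    refine mul_le_mul hM' ?_ (by positivity) hX45.le
    linarith
  have hcount : (T.ncard : ℝ) ≤ (B0.ncard : ℝ) + ∑ q ∈ I, ((LS q).ncard : ℝ) := by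
    have h1 : T.ncard ≤ B0.ncard + ∑ q ∈ I, (LS q).ncard :=
      (Set.ncard_le_ncard hsub hUfin).trans ((Set.ncard_union_le _ _).trans
        (add_le_add le_rfl (Finset.set_ncard_biUnion_le I LS)))
    exact_mod_cast h1
  have hsum : ∑ q ∈ I, ((LS q).ncard : ℝ) ≤ (I.card : ℝ) * ((2 * Cη) ^ K * X ^ ε) := by
    have := Finset.sum_le_card_nsmul I (fun q => ((LS q).ncard : ℝ)) _ hterm
    rw [nsmul_eq_mul] at this
    exact this
  have hpow : X ^ (4 / 5 + δ + ε) = X ^ (4 / 5 : ℝ) * X ^ δ * X ^ ε := by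
    rw [Real.rpow_add hX0, Real.rpow_add hX0]
  have hbig : 1 ≤ X ^ (4 / 5 + δ + ε) := Real.one_le_rpow hX (by linarith)
  have hCp : 0 ≤ (2 * Cη) ^ K := by positivity
  have hfinal : (I.card : ℝ) * ((2 * Cη) ^ K * X ^ ε) ≤
      34 * (2 * Cη) ^ K * X ^ (4 / 5 + δ + ε) := by
    calc (I.card : ℝ) * ((2 * Cη) ^ K * X ^ ε)
        ≤ (X ^ (4 / 5 : ℝ) * (34 * X ^ δ)) * ((2 * Cη) ^ K * X ^ ε) :=
          mul_le_mul_of_nonneg_right hcard (by positivity)
      _ = 34 * (2 * Cη) ^ K * X ^ (4 / 5 + δ + ε) := by rw [hpow]; ring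
  have hB : (B0.ncard : ℝ) ≤ (B0.ncard : ℝ) * X ^ (4 / 5 + δ + ε) :=
    le_mul_of_one_le_right (Nat.cast_nonneg _) hbig
  calc (T.ncard : ℝ) ≤ (B0.ncard : ℝ) + ∑ q ∈ I, ((LS q).ncard : ℝ) := hcount
    _ ≤ (B0.ncard : ℝ) * X ^ (4 / 5 + δ + ε) + 34 * (2 * Cη) ^ K * X ^ (4 / 5 + δ + ε) :=
        add_le_add hB (hsum.trans hfinal)
    _ = ((B0.ncard : ℝ) + 34 * (2 * Cη) ^ K) * X ^ (4 / 5 + δ + ε) := by ring

end Pool.Agent.W64.RB.BMAIN
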